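import Pool.Agent.helper66.SL.SpecC

/-! Row CDS: the sum of the numbers of topes with a double opposite vertex. -/

set_option autoImplicit false

namespace Pool.Agent.helper66.SL

open Pool.Agent.helper52.FC

theorem CDS_fl_neg {E : Type} (T : E → SignType) (e : E) :
    fl (fun g => -T g) e = fun g => -(fl T e g) := by
  funext g
  by_cases h : g = e
  · subst h
    rw [fl_same, fl_same]
  · rw [fl_ne _ h, fl_ne _ h]

theorem CDS_wall_neg {E : Type} {L : Set (E → SignType)} (hL : IsOM L) (hs : IsSimple L)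
    {T : E → SignType} {e : E} (h : Wall L T e) : Wall L (fun g => -T g) e := by
  show IsTope L (fl (fun g => -T g) e)
  rw [CDS_fl_neg]
  exact tope_neg hL hs h

theorem CDS_nn {E : Type} (T : E → SignType) : (fun g => -(fun g => -T g) g) = T := by
  funext g
  simp

theorem CDS_le_neg {E : Type} {p T : E → SignType} (h : Le p T) :
    Le (fun g => -p g) (fun g => -T g) := by
  intro g
  rcases h g with h1 | h1
  · left
    show -p g = 0
    rw [h1, neg_zero]
  · right
    show -p g = -T g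
    rw [h1]

theorem CDS_vx_neg {E : Type} {L : Set (E → SignType)} (hL : IsOM L) (hs : IsSimple L)
    {m : ℕ} {p : E → SignType} (h : Vx L m p) : Vx L m (fun g => -p g) := by
  have hd : ∀ s : SignType, -s = 0 ↔ s = 0 := by decide
  have hz : ∀ g, -p g = 0 ↔ p g = 0 := fun g => hd (p g)
  refine ⟨⟨hL.neg p h.1.1, ?_⟩, ?_⟩
  · intro T hT hle
    have h1 := h.1.2 (fun g => -T g) (tope_neg hL hs hT) (by
      have := CDS_le_neg hle
      rwa [CDS_nn] at this)
    rw [← h1]
    refine congrArg Set.ncard ?_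
    ext e
    constructor
    · rintro ⟨h2, h3⟩
      exact ⟨CDS_wall_neg hL hs h2, (hz e).1 h3⟩
    · rintro ⟨h2, h3⟩
      refine ⟨?_, (hz e).2 h3⟩
      have := CDS_wall_neg hL hs h2
      rwa [CDS_nn] at this
  · rw [← h.2]
    refine congrArg Set.ncard ?_
    ext g
    exact hz g

/-- Topes and double vertices below them. -/
def CDS_P {E : Type} (L : Set (E → SignType)) : Set ((E → SignType) × (E → SignType)) :=
  {y | IsTope L y.1 ∧ Vx L 2 y.2 ∧ Le y.2 y.1}

/-- The same, with the wall off the vertex. -/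
def CDS_A {E : Type} (L : Set (E → SignType)) : Set (E × (E → SignType) × (E → SignType)) :=
  {x | IsTope L x.2.1 ∧ Vx L 2 x.2.2 ∧ Le x.2.2 x.2.1 ∧ Wall L x.2.1 x.1 ∧ x.2.2 x.1 ≠ 0}

theorem CDS_ex (hTRI : TRI) {E : Type} [Finite E] {L : Set (E → SignType)} (hL : R3 L)
    {T p : E → SignType} (hT : IsTope L T) (hp : Cork L p 2) (hle : Le p T) :
    ∃ e, Wall L T e ∧ p e ≠ 0 ∧ ∀ e', Wall L T e' → p e' ≠ 0 → e' = e := by
  obtain ⟨i, j, k, a, b, c, hij, hik, hjk, hw, ha, hb, hc, hla, hlb, hlc, h1, h2, h3, h4, h5, h6,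
    h7, h8, h9, hall⟩ := hTRI E L hL T hT
  rcases hall p hp hle with h | h | h
  · subst h
    refine ⟨i, (hw i).2 (Or.inl rfl), h1, ?_⟩
    intro e' he' hne
    rcases (hw e').1 he' with h | h | h
    · exact h
    · exact absurd (by rw [h]; exact h2) hne
    · exact absurd (by rw [h]; exact h3) hne
  · subst h
    refine ⟨j, (hw j).2 (Or.inr (Or.inl rfl)), h5, ?_⟩
    intro e' he' hne
    rcases (hw e').1 he' with h | h | h
    · exact absurd (by rw [h]; exact h4) hne
    · exact h
    · exact absurd (by rw [h]; exact h6) hne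
  · subst h
    refine ⟨k, (hw k).2 (Or.inr (Or.inr rfl)), h9, ?_⟩
    intro e' he' hne
    rcases (hw e').1 he' with h | h | h
    · exact absurd (by rw [h]; exact h7) hne
    · exact absurd (by rw [h]; exact h8) hne
    · exact h

theorem CDS_un (hTRI : TRI) {E : Type} [Finite E] {L : Set (E → SignType)} (hL : R3 L)
    {T p q : E → SignType} (hT : IsTope L T) (hp : Cork L p 2) (hq : Cork L q 2) (hle : Le p T)
    (hle' : Le q T) {e : E} (he : Wall L T e) (h : p e ≠ 0) (h' : q e ≠ 0) : p = q := by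
  obtain ⟨i, j, k, a, b, c, hij, hik, hjk, hw, ha, hb, hc, hla, hlb, hlc, h1, h2, h3, h4, h5, h6,
    h7, h8, h9, hall⟩ := hTRI E L hL T hT
  have key : ∀ s, Cork L s 2 → Le s T → s e ≠ 0 → (e = i → s = a) ∧ (e = j → s = b) ∧ (e = k → s = c) := by
    intro s hs hls hse
    refine ⟨?_, ?_, ?_⟩
    · intro hei
      subst hei
      rcases hall s hs hls with h | h | h
      · exact h
      · exact absurd (by rw [h]; exact h4) hse
      · exact absurd (by rw [h]; exact h7) hse
    · intro hei
      subst hei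
      rcases hall s hs hls with h | h | h
      · exact absurd (by rw [h]; exact h2) hse
      · exact h
      · exact absurd (by rw [h]; exact h8) hse
    · intro hei
      subst hei
      rcases hall s hs hls with h | h | h
      · exact absurd (by rw [h]; exact h3) hse
      · exact absurd (by rw [h]; exact h6) hse
      · exact h
  have kp := key p hp hle h
  have kq := key q hq hle' h'
  rcases (hw e).1 he with h0 | h0 | h0
  · rw [kp.1 h0, kq.1 h0]
  · rw [kp.2.1 h0, kq.2.1 h0]
  · rw [kp.2.2 h0, kq.2.2 h0]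

theorem CDS_AP (hTRI : TRI) {E : Type} [Finite E] {L : Set (E → SignType)} (hL : R3 L) :
    (CDS_A L).ncard = (CDS_P L).ncard := by
  have himg : Prod.snd '' (CDS_A L) = CDS_P L := by
    ext y
    constructor
    · rintro ⟨x, ⟨h1, h2, h3, _, _⟩, rfl⟩
      exact ⟨h1, h2, h3⟩
    · rintro ⟨h1, h2, h3⟩
      obtain ⟨e, he, hpe, _⟩ := CDS_ex hTRI hL h1 h2.1 h3
      exact ⟨(e, y), ⟨h1, h2, h3, he, hpe⟩, rfl⟩
  rw [← himg]
  refine (Set.ncard_image_of_injOn ?_).symm
  rintro ⟨e, T, p⟩ ⟨h1, h2, h3, h4, h5⟩ ⟨e', T', p'⟩ ⟨h1', h2', h3', h4', h5'⟩ heq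
  have hT : T = T' := congrArg Prod.fst heq
  have hp : p = p' := congrArg Prod.snd heq
  subst hT
  subst hp
  obtain ⟨e0, _, _, hu⟩ := CDS_ex hTRI hL h1 h2.1 h3
  have : e = e' := (hu e h4 h5).trans (hu e' h4' h5').symm
  rw [this]

theorem CDS_P4 (hSTC : STC) {E : Type} [Finite E] {L : Set (E → SignType)} (hL : R3 L) :
    (CDS_P L).ncard = 4 * {p | Vx L 2 p}.ncard := by
  classical
  have hf : (CDS_P L).Finite := Set.toFinite _
  have hf' : {p | Vx L 2 p}.Finite := Set.toFinite _
  rw [Set.ncard_eq_toFinset_card _ hf, Set.ncard_eq_toFinset_card _ hf']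
  rw [Finset.card_eq_sum_card_fiberwise (f := Prod.snd) (t := hf'.toFinset)]
  · rw [Finset.sum_const_nat (m := 4)]
    · ring
    · intro p hp
      have hp' : Vx L 2 p := by simpa using hp
      have h4 := hSTC E L hL 2 p (Or.inl rfl) hp'
      have himg : (hf.toFinset.filter (fun y => Prod.snd y = p)).image Prod.fst =
          (Set.toFinite {T | IsTope L T ∧ Le p T}).toFinset := by
        ext T
        simp only [Finset.mem_image, Finset.mem_filter, Set.Finite.mem_toFinset, Set.mem_setOf_eq]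
        constructor
        · rintro ⟨y, ⟨⟨h1, h2, h3⟩, h5⟩, rfl⟩
          subst h5
          exact ⟨h1, h3⟩
        · rintro ⟨h1, h2⟩
          exact ⟨(T, p), ⟨⟨h1, hp', h2⟩, rfl⟩, rfl⟩
      have hcard : ((hf.toFinset.filter (fun y => Prod.snd y = p)).image Prod.fst).card =
          (hf.toFinset.filter (fun y => Prod.snd y = p)).card := by
        refine Finset.card_image_of_injOn ?_
        intro y hy y' hy' h
        have h1 : y.2 = p := (Finset.mem_filter.1 (Finset.mem_coe.1 hy)).2
        have h2 : y'.2 = p := (Finset.mem_filter.1 (Finset.mem_coe.1 hy')).2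
        exact Prod.ext h (h1.trans h2.symm)
      rw [← hcard, himg, ← Set.ncard_eq_toFinset_card]
      exact h4
  · intro y hy
    have : y ∈ CDS_P L := by simpa using hy
    simpa using this.2.1

theorem CDS_half {E : Type} [Finite E] {L : Set (E → SignType)} (hL : R3 L) :
    (CDS_A L).ncard = 2 * (CDS_A L ∩ {x | x.2.1 x.1 = 1}).ncard := by
  have hom := hL.good.om
  have hs := hL.good.simple
  have hneg : ∀ x : E × (E → SignType) × (E → SignType), x ∈ CDS_A L →
      ((x.1, (fun g => -x.2.1 g), (fun g => -x.2.2 g)) : E × (E → SignType) × (E → SignType)) ∈ CDS_A L := by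
    rintro ⟨e, T, p⟩ ⟨h1, h2, h3, h4, h5⟩
    refine ⟨tope_neg hom hs h1, CDS_vx_neg hom hs h2, CDS_le_neg h3, CDS_wall_neg hom hs h4, ?_⟩
    show -p e ≠ 0
    have hd : ∀ s : SignType, -s = 0 → s = 0 := by decide
    exact fun h => h5 (hd _ h)
  have hsplit : CDS_A L = (CDS_A L ∩ {x | x.2.1 x.1 = 1}) ∪ (CDS_A L ∩ {x | x.2.1 x.1 = -1}) := by
    ext x
    constructor
    · intro hx
      have hne : x.2.1 x.1 ≠ 0 := tope_supp hom hs hx.1 x.1
      have h3 : ∀ s : SignType, s ≠ 0 → s = 1 ∨ s = -1 := by decide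
      rcases h3 _ hne with h | h
      · exact Or.inl ⟨hx, h⟩
      · exact Or.inr ⟨hx, h⟩
    · rintro (h | h)
      · exact h.1
      · exact h.1
  have hdis : Disjoint (CDS_A L ∩ {x | x.2.1 x.1 = 1}) (CDS_A L ∩ {x | x.2.1 x.1 = -1}) := by
    rw [Set.disjoint_left]
    rintro x ⟨_, h1⟩ ⟨_, h2⟩
    have h1' : x.2.1 x.1 = 1 := h1
    have h2' : x.2.1 x.1 = -1 := h2
    rw [h1'] at h2'
    exact absurd h2' (by decide)
  have himg : (fun x : E × (E → SignType) × (E → SignType) => ((x.1, (fun g => -x.2.1 g), (fun g => -x.2.2 g)) :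
      E × (E → SignType) × (E → SignType))) '' (CDS_A L ∩ {x | x.2.1 x.1 = 1}) =
      CDS_A L ∩ {x | x.2.1 x.1 = -1} := by
    ext y
    constructor
    · rintro ⟨x, ⟨hx, h1⟩, rfl⟩
      refine ⟨hneg x hx, ?_⟩
      have h1' : x.2.1 x.1 = 1 := h1
      show -(x.2.1 x.1) = -1
      rw [h1']
    · rintro ⟨hy, h1⟩
      have h1' : y.2.1 y.1 = -1 := h1
      refine ⟨_, ⟨hneg y hy, ?_⟩, ?_⟩
      · show -(y.2.1 y.1) = 1
        rw [h1']
        decide
      · obtain ⟨e, T, p⟩ := y
        show ((e, (fun g => -(fun g => -T g) g), (fun g => -(fun g => -p g) g)) :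
          E × (E → SignType) × (E → SignType)) = (e, T, p)
        rw [CDS_nn, CDS_nn]
  have hinj : Function.Injective (fun x : E × (E → SignType) × (E → SignType) =>
      ((x.1, (fun g => -x.2.1 g), (fun g => -x.2.2 g)) : E × (E → SignType) × (E → SignType))) := by
    rintro ⟨e, T, p⟩ ⟨e', T', p'⟩ h
    have h1 : e = e' := congrArg Prod.fst h
    have h2 : (fun g => -T g) = (fun g => -T' g) := congrArg (fun x => x.2.1) h
    have h3 : (fun g => -p g) = (fun g => -p' g) := congrArg (fun x => x.2.2) h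
    have h4 : T = T' := by
      funext g
      exact neg_injective (congrFun h2 g)
    have h5 : p = p' := by
      funext g
      exact neg_injective (congrFun h3 g)
    rw [h1, h4, h5]
  have hcard : (CDS_A L ∩ {x | x.2.1 x.1 = -1}).ncard = (CDS_A L ∩ {x | x.2.1 x.1 = 1}).ncard := by
    rw [← himg]
    exact Set.ncard_image_of_injective _ hinj
  have := Set.ncard_union_eq hdis (Set.toFinite _) (Set.toFinite _)
  rw [← hsplit, hcard] at this
  omega

theorem CDS_sum (hTRI : TRI) {E : Type} [Fintype E] {L : Set (E → SignType)} (hL : R3 L) :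
    ∑ e, (Ds L e).ncard = (CDS_A L ∩ {x | x.2.1 x.1 = 1}).ncard := by
  classical
  have hf : (CDS_A L ∩ {x | x.2.1 x.1 = 1}).Finite := Set.toFinite _
  rw [Set.ncard_eq_toFinset_card _ hf]
  rw [Finset.card_eq_sum_card_fiberwise (f := Prod.fst) (t := Finset.univ)]
  · refine Finset.sum_congr rfl ?_
    intro e _
    have himg : (hf.toFinset.filter (fun y => Prod.fst y = e)).image (fun x => x.2.1) =
        (Set.toFinite (Ds L e)).toFinset := by
      ext T
      simp only [Finset.mem_image, Finset.mem_filter, Set.Finite.mem_toFinset]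
      constructor
      · rintro ⟨x, ⟨⟨⟨h1, h2, h3, h4, h5⟩, h6⟩, h7⟩, rfl⟩
        subst h7
        exact ⟨h1, h4, h6, x.2.2, h2, h3, h5⟩
      · rintro ⟨h1, h2, h3, p, h4, h5, h6⟩
        exact ⟨(e, T, p), ⟨⟨⟨h1, h4, h5, h2, h6⟩, h3⟩, rfl⟩, rfl⟩
    have hcard : ((hf.toFinset.filter (fun y => Prod.fst y = e)).image (fun x => x.2.1)).card =
        (hf.toFinset.filter (fun y => Prod.fst y = e)).card := by
      refine Finset.card_image_of_injOn ?_
      intro y hy y' hy' h
      obtain ⟨hy1, hy2⟩ := Finset.mem_filter.1 (Finset.mem_coe.1 hy)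
      obtain ⟨hy1', hy2'⟩ := Finset.mem_filter.1 (Finset.mem_coe.1 hy')
      have hA := ((Set.Finite.mem_toFinset hf).1 hy1).1
      have hA' := ((Set.Finite.mem_toFinset hf).1 hy1').1
      obtain ⟨e1, T, p⟩ := y
      obtain ⟨e2, T', p'⟩ := y'
      have h1 : e1 = e := hy2
      have h2 : e2 = e := hy2'
      have h3 : T = T' := h
      subst h1
      subst h2
      subst h3
      obtain ⟨a1, a2, a3, a4, a5⟩ := hA
      obtain ⟨b1, b2, b3, b4, b5⟩ := hA'
      have : p = p' := CDS_un hTRI hL a1 a2.1 b2.1 a3 b3 a4 a5 b5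
      rw [this]
    rw [← hcard, himg, ← Set.ncard_eq_toFinset_card]
  · intro y _
    simp

theorem CDS_proof (hTRI : TRI) (hSTC : STC) : CDS := by
  intro E _ L hL
  have h1 := CDS_sum hTRI hL
  have h2 := CDS_half hL
  have h3 := CDS_AP hTRI hL
  have h4 := CDS_P4 hSTC hL
  omega

end Pool.Agent.helper66.SL
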