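import Pool.Agent.helper66.SL.SpecB

/-! Row LCK: coranks in the localization. -/

set_option autoImplicit false

namespace Pool.Agent.helper66.SL

open Pool.Agent.helper52.FC

theorem LCK_proof (hLTP : LTP) (hLWL : LWL) : LCK := by
  intro E _ L hom hsim X hX Z hZ hXZ k
  have hzero : ∀ e, Z e = 0 → X e = 0 := by
    intro e he
    rcases hXZ e with h | h
    · exact h
    · rw [h, he]
  have key : ∀ T, IsTope L T → Le X T →
      {e : E | Wall L T e ∧ Z e = 0}.ncard =
        {e : {e : E // X e = 0} | Wall (Loc L X) (fun g : {e : E // X e = 0} => T g.1) e ∧ Z e.1 = 0}.ncard := by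
    intro T hT hXT
    rw [← Set.ncard_image_of_injective _ (Subtype.val_injective (p := fun e : E => X e = 0))]
    refine congrArg Set.ncard ?_
    ext e
    constructor
    · rintro ⟨h1, h2⟩
      exact ⟨⟨e, hzero e h2⟩, ⟨(hLWL E L hom hsim X hX T hT hXT ⟨e, hzero e h2⟩).2 h1, h2⟩, rfl⟩
    · rintro ⟨e', ⟨h1, h2⟩, rfl⟩
      exact ⟨(hLWL E L hom hsim X hX T hT hXT e').1 h1, h2⟩
  constructor
  · rintro ⟨_, h⟩
    refine ⟨hZ, ?_⟩
    intro T hT hZT
    have hXT : Le X T := by
      intro e
      rcases hXZ e with h | h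
      · exact Or.inl h
      · rcases hZT e with h1 | h1
        · left
          rw [h, h1]
        · right
          rw [h, h1]
    rw [key T hT hXT]
    exact h _ ((hLTP E L hom hsim X hX _).2 ⟨T, hT, hXT, fun e => rfl⟩) (fun e => hZT e.1)
  · rintro ⟨_, h⟩
    refine ⟨⟨Z, hZ, fun _ => rfl⟩, ?_⟩
    intro T' hT' hZT'
    obtain ⟨T, hT, hXT, hTT⟩ := (hLTP E L hom hsim X hX _).1 hT'
    have hT'eq : T' = fun g : {e : E // X e = 0} => T g.1 := funext hTT
    have hZT : Le Z T := by
      intro e
      by_cases hx : X e = 0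
      · rcases hZT' ⟨e, hx⟩ with h1 | h1
        · exact Or.inl h1
        · right
          rw [hTT ⟨e, hx⟩] at h1
          exact h1
      · right
        rw [← (hXZ e).resolve_left hx, (hXT e).resolve_left hx]
    rw [hT'eq, ← key T hT hXT]
    exact h T hT hZT

end Pool.Agent.helper66.SL
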