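import Pool.Agent.helper66.SL.SpecB

/-! Row LCL: flats of the localization. -/

set_option autoImplicit false

namespace Pool.Agent.helper66.SL

open Pool.Agent.helper52.FC

theorem LCL_proof : LCL := by
  intro E _ L X hX a b
  rw [← Set.ncard_image_of_injective _ (Subtype.val_injective (p := fun e : E => X e = 0))]
  refine Set.ncard_le_ncard ?_ (Set.toFinite _)
  rintro _ ⟨g, hg, rfl⟩
  intro Y hY ha hb
  exact hg (fun e => Y e.1) ⟨Y, hY, fun _ => rfl⟩ ha hb

end Pool.Agent.helper66.SL
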