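import Pool.Agent.helper66.SL.SpecB

/-! Row LTP: topes of the localization. -/

set_option autoImplicit false

namespace Pool.Agent.helper66.SL

open Pool.Agent.helper52.FC

theorem LTP_proof : LTP := by
  intro E _ L hom hsim X hX T'
  constructor
  · intro hT'
    obtain ⟨Y, hY, hYT⟩ := hT'.1
    have hne : ∀ e : {e : E // X e = 0}, T' e ≠ 0 := by
      intro e
      refine max_supp (restr_om hom _) hT' ?_
      obtain ⟨W, hW, hWe⟩ := hsim.loop e.1
      exact ⟨fun g => W g.1, ⟨W, hW, fun _ => rfl⟩, hWe⟩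
    refine ⟨cmp X Y, tope_of (hom.comp X hX Y hY) ?_, le_cmp X Y, ?_⟩
    · intro e
      by_cases h : X e = 0
      · rw [cmp_pos h, ← hYT ⟨e, h⟩]
        exact hne ⟨e, h⟩
      · rwa [cmp_neg h]
    · intro e
      rw [cmp_pos e.2, hYT e]
  · rintro ⟨T, hT, _, hTT⟩
    refine tope_of ⟨T, hT.1, hTT⟩ ?_
    intro e
    rw [hTT e]
    exact tope_supp hom hsim hT e.1

end Pool.Agent.helper66.SL
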