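import Pool.Agent.helper66.SL.SpecB

/-! Row LWL: walls in the localization. -/

set_option autoImplicit false

namespace Pool.Agent.helper66.SL

open Pool.Agent.helper52.FC

theorem LWL_proof (hLTP : LTP) : LWL := by
  intro E _ L hom hsim X hX T hT hXT e
  have hfl : ∀ g : {e : E // X e = 0}, fl (fun g : {e : E // X e = 0} => T g.1) e g = fl T e.1 g.1 := by
    intro g
    by_cases h : g = e
    · subst h
      rw [fl_same, fl_same]
    · rw [fl_ne _ h, fl_ne _ (fun h' => h (Subtype.ext h'))]
  constructor
  · intro hw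
    obtain ⟨T2, hT2, hXT2, hTT⟩ := (hLTP E L hom hsim X hX _).1 hw
    have : T2 = fl T e.1 := by
      funext g
      by_cases h : X g = 0
      · rw [← hTT ⟨g, h⟩, hfl]
      · have h1 : X g = T2 g := (hXT2 g).resolve_left h
        have h2 : X g = T g := (hXT g).resolve_left h
        have h3 : g ≠ e.1 := fun h3 => h (by rw [h3]; exact e.2)
        rw [fl_ne _ h3, ← h1, h2]
    show IsTope L (fl T e.1)
    rw [← this]
    exact hT2
  · intro hw
    refine (hLTP E L hom hsim X hX _).2 ⟨fl T e.1, hw, ?_, hfl⟩
    intro g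
    by_cases h : X g = 0
    · exact Or.inl h
    · have h2 : X g = T g := (hXT g).resolve_left h
      have h3 : g ≠ e.1 := fun h3 => h (by rw [h3]; exact e.2)
      right
      rw [fl_ne _ h3, h2]

end Pool.Agent.helper66.SL
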